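import Pool.Agent.V11265.Dih.Final

/-!
# The base size set and the determining set of every dihedral group

`ω(n)` denotes the number of prime divisors of `n`. The base size set of the dihedral group of
order `2n` is `{1, ..., ω(n) + 1}` for every `n ≥ 2`. The determining set is the same set if `n` is an
odd prime, or twice an odd prime, or if the square of every odd prime divisor of `n` divides `n`;
it is `{1, ..., ω(n)}` for all other `n`.
-/

namespace Pool.Agent.Results.MP_4c7f2d_al.BothSets

open DihBase

theorem result : ∀ n : ℕ, 2 ≤ n →
    BaseSizeSet (DihedralGroup n) = Set.Icc 1 (n.primeFactors.card + 1) ∧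
    (Good n → DeterminingSet (DihedralGroup n) = Set.Icc 1 (n.primeFactors.card + 1)) ∧
    (¬ Good n → DeterminingSet (DihedralGroup n) = Set.Icc 1 n.primeFactors.card) :=
  fun n hn => ⟨(main n hn).1, (main n hn).2.1, (main n hn).2.2.1⟩

end Pool.Agent.Results.MP_4c7f2d_al.BothSets
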