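import Pool.Agent.V11265.Dih.Final

/-!
# The dihedral groups whose determining set equals the base size set

For `n ≥ 2` the two sets of the dihedral group of order `2n` are equal if and only if `n` is an
odd prime, or twice an odd prime, or the square of every odd prime divisor of `n` divides `n`.
-/

namespace Pool.Agent.Results.MP_4c7f2d_al.WhenEqual

open DihBase

theorem result : ∀ n : ℕ, 2 ≤ n →
    (DeterminingSet (DihedralGroup n) = BaseSizeSet (DihedralGroup n) ↔
      ((∃ p : ℕ, p.Prime ∧ p ≠ 2 ∧ (n = p ∨ n = 2 * p)) ∨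
        ∀ p : ℕ, p.Prime → p ≠ 2 → p ∣ n → p ^ 2 ∣ n)) :=
  fun n hn => (main n hn).2.2.2

end Pool.Agent.Results.MP_4c7f2d_al.WhenEqual
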